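import Pool.Agent.MWGQ.StmtsD

/-!
# MWGQ, row ITA: the fill identity and `I1` imply `It`
-/

namespace Pool.Agent.MWGQ.H27

open Pool.Agent.Helper14_MV Pool.Agent.Helper2_MV
open Pool.Agent.MWK (pre)
open Pool.Agent.MWGN (Nm Tau)

theorem pw_one (a x : ℕ) : pw a [x] = List.replicate a x := by
  unfold pw
  induction a with
  | zero => rfl
  | succ a ih =>
    rw [List.replicate_succ, List.flatten_cons, ih, List.replicate_succ, List.singleton_append]

theorem ita (h1 : PwxStmt) : ItaStmt := by
  intro n β hG hI hF p w w' q x hM
  obtain ⟨pw1, -, -⟩ := h1 n β hG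
  have hn := hG.pos
  have hP : RR β (List.replicate (n + 1) x)
      (List.replicate (n + 1) x ++ List.replicate (2 * n) x) := by
    have h2 := pw1 [x] (n + 1) (n + 1 + 2 * n) (by omega) (by omega)
      (by
        unfold Nat.ModEq
        rw [Nat.add_mul_mod_self_right])
    rw [pw_one, pw_one, List.replicate_add (n + 1) (2 * n)] at h2
    exact h2
  have cnt : ∀ a ∈ w ++ w', 2 ≤ p.count a + ([x].count a + (w.count a + (w'.count a +
      ([x].count a + q.count a)))) := by
    intro a ha
    have h3 := hM a ha
    have e : p ++ x :: (w ++ (w' ++ x :: q)) = p ++ ([x] ++ (w ++ (w' ++ ([x] ++ q)))) := by simp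
    rw [e] at h3
    simpa only [List.count_append] using h3
  have s1 : RR β (p ++ x :: (w ++ (w' ++ x :: q)))
      (p ++ (List.replicate (n + 1) x ++ (w ++ (w' ++ x :: q)))) := by
    have h2 := hI p (w ++ w') q x (by
      rw [List.append_assoc]
      exact hM)
    rw [List.append_assoc] at h2
    exact h2
  have s2 : RR β (p ++ (List.replicate (n + 1) x ++ (w ++ (w' ++ x :: q))))
      (p ++ ((List.replicate (n + 1) x ++ List.replicate (2 * n) x) ++ (w ++ (w' ++ x :: q)))) :=
    RR.append (RR.refl p) (RR.append hP (RR.refl _))
  have s3 : RR β ((p ++ List.replicate (n + 1) x) ++ (List.replicate (2 * n) x ++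
        (w ++ (w' ++ x :: q))))
      ((p ++ List.replicate (n + 1) x) ++ (List.replicate (2 * n) x ++
        (w ++ (List.replicate n x ++ (w' ++ x :: q))))) := by
    apply hF
    intro a ha
    have h3 := cnt a ha
    have e : (p ++ List.replicate (n + 1) x) ++ (List.replicate (2 * n) x ++
        (w ++ (w' ++ x :: q))) = (p ++ ([x] ++ List.replicate n x)) ++ (List.replicate (2 * n) x ++
        (w ++ (w' ++ ([x] ++ q)))) := by
      rw [List.replicate_succ]
      simp
    rw [e]
    simp only [List.count_append]
    omega
  have s4 : RR β (p ++ ((List.replicate (n + 1) x ++ List.replicate (2 * n) x) ++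
        (w ++ (List.replicate n x ++ (w' ++ x :: q)))))
      (p ++ (List.replicate (n + 1) x ++ (w ++ (List.replicate n x ++ (w' ++ x :: q))))) :=
    RR.append (RR.refl p) (RR.append hP.symm (RR.refl _))
  have s5 : RR β (p ++ x :: ((w ++ (List.replicate n x ++ w')) ++ x :: q))
      (p ++ (List.replicate (n + 1) x ++ ((w ++ (List.replicate n x ++ w')) ++ x :: q))) := by
    apply hI
    intro a ha
    have e : p ++ x :: ((w ++ (List.replicate n x ++ w')) ++ x :: q) =
        p ++ ([x] ++ ((w ++ (List.replicate n x ++ w')) ++ ([x] ++ q))) := by simp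
    rw [e]
    simp only [List.count_append]
    by_cases hax : a = x
    · subst hax
      have : [a].count a = 1 := by simp
      omega
    · have ha' : a ∈ w ++ w' := by
        rcases List.mem_append.1 ha with h | h
        · exact List.mem_append_left _ h
        · rcases List.mem_append.1 h with h | h
          · exact absurd (List.eq_of_mem_replicate h) hax
          · exact List.mem_append_right _ h
      have h3 := cnt a ha'
      omega
  have e5 : p ++ x :: ((w ++ (List.replicate n x ++ w')) ++ x :: q) =
      p ++ x :: (w ++ (List.replicate n x ++ (w' ++ x :: q))) := by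
    rw [List.append_assoc, List.append_assoc]
  have e6 : p ++ (List.replicate (n + 1) x ++ ((w ++ (List.replicate n x ++ w')) ++ x :: q)) =
      p ++ (List.replicate (n + 1) x ++ (w ++ (List.replicate n x ++ (w' ++ x :: q)))) := by
    rw [List.append_assoc w, List.append_assoc]
  rw [e5, e6] at s5
  have e3 : (p ++ List.replicate (n + 1) x) ++ (List.replicate (2 * n) x ++
        (w ++ (w' ++ x :: q))) = p ++ ((List.replicate (n + 1) x ++ List.replicate (2 * n) x) ++
          (w ++ (w' ++ x :: q))) := by
    simp only [List.append_assoc]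
  have e4 : (p ++ List.replicate (n + 1) x) ++ (List.replicate (2 * n) x ++
        (w ++ (List.replicate n x ++ (w' ++ x :: q)))) =
      p ++ ((List.replicate (n + 1) x ++ List.replicate (2 * n) x) ++
        (w ++ (List.replicate n x ++ (w' ++ x :: q)))) := by
    simp only [List.append_assoc]
  rw [e3, e4] at s3
  exact β.trans (β.trans (β.trans (β.trans s1 s2) s3) s4) s5.symm

end Pool.Agent.MWGQ.H27
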